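import Pool.Agent.H66.GUA.Targets
import Pool.Agent.H91.LF.Basic

/-!
Module CT of the project GU, chapter A (affine trick), on `MP_c59857_nt`.
-/

set_option autoImplicit false

open Finset Filter Topology

namespace Pool.Agent.H79.GUA

open Pool.Agent.H31.DP
open Pool.Agent.H31.DPD
open Pool.Agent.H66.GUA
open Pool.Agent.H91.LF (lz abs_lz_le)
open Pool.Agent.H24.T2 (Pset box cub)

theorem ind_zero {P : Prop} (h : ¬ P) : ind P = 0 := by
  unfold ind
  rw [if_neg h]

theorem abs_ind_le (P : Prop) : |ind P| ≤ 1 := by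
  unfold ind
  split_ifs <;> simp

theorem abs_sI_le {d : ℕ} (M : ℕ) (Q : ℤ) (u : Fin d → ℤ) (hQ : ∀ i, |Q * u i| ≤ (M : ℤ))
    (I : Finset (Fin d)) : |Q * sI u I| ≤ d * M := by
  unfold sI
  rw [Finset.mul_sum]
  refine (Finset.abs_sum_le_sum_abs _ _).trans ?_
  refine (Finset.sum_le_sum fun i _ => hQ i).trans ?_
  rw [Finset.sum_const, nsmul_eq_mul]
  have h1 : I.card ≤ d := by
    have := Finset.card_le_univ I
    rwa [Fintype.card_fin] at this
  have h2 : ((I.card : ℕ) : ℤ) ≤ d := by exact_mod_cast h1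
  exact mul_le_mul_of_nonneg_right h2 (Nat.cast_nonneg M)

theorem abs_GG_le {l d : ℕ} (M B : ℕ) (Q s₀ : ℤ) (u : Fin d → ℤ)
    (x : Finset (Fin d) × Option (Fin l)) (z : ℤ) : |GG M B Q s₀ u x z| ≤ 1 := by
  obtain ⟨I, o⟩ := x
  unfold GG
  rcases o with _ | i
  · exact abs_ind_le _
  · simp only
    rw [abs_mul, abs_mul]
    exact mul_le_one₀ (abs_ind_le _) (mul_nonneg (abs_nonneg _) (abs_nonneg _))
      (mul_le_one₀ (abs_lz_le _) (abs_nonneg _) (abs_lz_le _))

theorem GG_zero {l d : ℕ} (M B : ℕ) (Q s₀ : ℤ) (u : Fin d → ℤ)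
    (hQ : ∀ i, |Q * u i| ≤ (M : ℤ)) (x : Finset (Fin d) × Option (Fin l)) (z : ℤ)
    (hz : z ∉ Finset.Icc (1 - (d * M : ℤ)) ((M : ℤ) + B + d * M)) :
    GG M B Q s₀ u x z = 0 := by
  obtain ⟨I, o⟩ := x
  have h1 := abs_le.1 (abs_sI_le M Q u hQ I)
  rw [Finset.mem_Icc] at hz
  unfold GG
  rcases o with _ | i
  · refine ind_zero fun h => hz ?_
    simp only at h
    constructor <;> linarith [h.1.1, h.1.2, h1.1, h1.2, (Nat.cast_nonneg B : (0 : ℤ) ≤ B)]
  · simp only
    rw [ind_zero, zero_mul]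
    intro h
    refine hz ?_
    constructor <;> linarith [h.1, h.2, h1.1, h1.2]

theorem pf_CT (hPR : T_PR) (hGZ : T_GZ) : T_CT := by
  classical
  intro d l h A B X M Q s₀ u c w hB hX hQ
  have hcard : Fintype.card (Finset (Fin d) × Option (Fin l)) = nf d l := by
    rw [Fintype.card_prod, Fintype.card_finset, Fintype.card_fin, Fintype.card_option,
      Fintype.card_fin]
    rfl
  have hpos : 0 < nf d l := by unfold nf; positivity
  have h1 := hGZ (Finset (Fin d) × Option (Fin l)) X ((2 * d + 1) * M + B)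
    (Finset.Icc (1 - (d * M : ℤ)) ((M : ℤ) + B + d * M)) (Finset.Icc (1 : ℤ) M)
    (fun x z => ((GG M B Q s₀ u x z : ℝ) : ℂ)) (vv h c) (A.map Nat.castEmbedding) w
    (by rw [hcard]; exact hpos) ?_ ?_ ?_ ?_ ?_
  · rw [hcard, Finset.sum_map] at h1
    have h2 : ∑ p ∈ A, w p * ((CAc h p M (cns s₀ (fun i => Q * u i + p * c i)) : ℝ) : ℂ) =
        ∑ p ∈ A, w (Nat.castEmbedding p : ℤ) * ∑ y ∈ Finset.Icc (1 : ℤ) M,
          ∏ x : Finset (Fin d) × Option (Fin l),
            ((GG M B Q s₀ u x (y + (Nat.castEmbedding p : ℤ) * vv h c x) : ℝ) : ℂ) := by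
      refine Finset.sum_congr rfl fun p hp => ?_
      rw [Nat.castEmbedding_apply, hPR d l h p B M Q s₀ u c (hB p hp)]
      push_cast
      rfl
    rw [h2]
    refine h1.trans (le_of_eq ?_)
    push_cast
    rfl
  · rw [Int.card_Icc]
    have h3 : (M : ℤ) + B + d * M + 1 - (1 - d * M) = (((2 * d + 1) * M + B : ℕ) : ℤ) := by
      push_cast; ring
    rw [h3, Int.toNat_natCast]
  · intro x z
    rw [Complex.norm_real, Real.norm_eq_abs]
    exact abs_GG_le _ _ _ _ _ _ _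
  · intro x z hz
    rw [GG_zero M B Q s₀ u hQ x z hz, Complex.ofReal_zero]
  · intro p hp q hq
    rw [Finset.mem_map] at hp hq
    obtain ⟨p, hp, rfl⟩ := hp
    obtain ⟨q, hq, rfl⟩ := hq
    exact hX p hp q hq
  · intro p _ y hy
    refine Finset.prod_eq_zero (Finset.mem_univ ((∅ : Finset (Fin d)), (none : Option (Fin l)))) ?_
    rw [Complex.ofReal_eq_zero]
    unfold GG vv
    simp only
    refine ind_zero fun h3 => hy ?_
    have h4 : sI c (∅ : Finset (Fin d)) = 0 := by simp [sI]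
    have h5 : sI u (∅ : Finset (Fin d)) = 0 := by simp [sI]
    rw [h4, h5] at h3
    rw [Finset.mem_Icc]
    simpa using h3.1

end Pool.Agent.H79.GUA
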