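import Pool.Agent.H66.GUA.Targets

/-!
The module `AF` of the chapter A2/A3 of the project GU: the affine parametrisation.
-/

set_option autoImplicit false

open Finset Filter Topology

namespace Pool.Agent.H79.GUA

open Pool.Agent.H24.T2 (Pset box cub box_card mem_box)
open Pool.Agent.H31.DP
open Pool.Agent.H31.DPD
open Pool.Agent.H66.GUA

theorem af_notmem {d N : ℕ} {s : Fin d → ℤ} (hs : s ∉ box d N) :
    ∃ i, (N : ℤ) ≤ |s i| := by
  by_contra hcon
  push Not at hcon
  apply hs
  rw [mem_box]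
  intro i
  exact (hcon i).le

theorem af_shift {d : ℕ} (N : ℕ) (v : Fin d → ℤ) (hv : ∀ i, |v i| ≤ 2 * N)
    (G : (Fin d → ℤ) → ℝ) (hG : ∀ s, (∃ i, (N : ℤ) ≤ |s i|) → G s = 0) :
    ∑ c ∈ box d (3 * N), G (fun i => c i + v i) = ∑ s ∈ box d N, G s := by
  classical
  have hinj : Function.Injective (fun (c : Fin d → ℤ) => (fun i => c i + v i : Fin d → ℤ)) := by
    intro a b hab
    funext i
    have h1 := congrFun hab i
    simp only at h1
    omega
  rw [← Finset.sum_image (f := G) (g := fun (c : Fin d → ℤ) => (fun i => c i + v i : Fin d → ℤ))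
    (s := box d (3 * N)) (fun a _ b _ hab => hinj hab)]
  symm
  apply Finset.sum_subset
  · intro s hs
    rw [mem_box] at hs
    rw [Finset.mem_image]
    refine ⟨fun i => s i - v i, ?_, ?_⟩
    · rw [mem_box]
      intro i
      have h1 := abs_le.1 (hs i)
      have h2 := abs_le.1 (hv i)
      push_cast
      rw [abs_le]
      constructor <;> omega
    · funext i
      simp
  · intro s _ hs
    exact hG s (af_notmem hs)

theorem af_lift {d q : ℕ} [NeZero q] (N : ℕ) (hq : 5 * N ≤ q) (hN : 0 < N)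
    (G : (Fin d → ℤ) → ℝ) (hG : ∀ s, (∃ i, (N : ℤ) ≤ |s i|) → G s = 0) :
    ∑ s : Fin d → ZMod q, G (lft s) = ∑ s ∈ box d N, G s := by
  classical
  have hinj : Function.Injective (fun (s : Fin d → ZMod q) => lft s) := by
    intro a b hab
    funext i
    have h1 := congrFun hab i
    simp only [lft] at h1
    exact ZMod.injective_valMinAbs h1
  rw [← Finset.sum_image (f := G) (g := fun (s : Fin d → ZMod q) => lft s)
    (s := Finset.univ) (fun a _ b _ hab => hinj hab)]
  symm
  apply Finset.sum_subset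
  · intro s hs
    rw [mem_box] at hs
    rw [Finset.mem_image]
    refine ⟨red q s, Finset.mem_univ _, ?_⟩
    funext i
    have h1 := abs_le.1 (hs i)
    simp only [lft, red]
    rw [ZMod.valMinAbs_spec]
    refine ⟨rfl, ?_⟩
    have h2 : (5 * N : ℤ) ≤ q := by exact_mod_cast hq
    constructor <;> omega
  · intro s _ hs
    exact hG s (af_notmem hs)

theorem af_red_lft {d q : ℕ} (s : Fin d → ZMod q) : red q (lft s) = s := by
  funext i
  simp only [lft, red]
  exact ZMod.coe_valMinAbs _

theorem pf_AF : T_AF := by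
  classical
  intro d q _ N Q p U R Φ hp hN hq hU hΦ
  set G : (Fin d → ℤ) → ℝ := fun s => ∑ b : Fin d → ZMod q,
    if (red q s, b) ∈ R then Φ s b else 0 with hGdef
  have hG : ∀ s, (∃ i, (N : ℤ) ≤ |s i|) → G s = 0 := by
    intro s hs
    simp only [hGdef]
    apply Finset.sum_eq_zero
    intro b _
    rw [hΦ s b hs, ite_self]
  have hL : ∑ x ∈ R, Φ (lft x.1) x.2 = ∑ s ∈ box d N, G s := by
    rw [← af_lift N hq hN G hG]
    simp only [hGdef]
    rw [← Fintype.sum_prod_type' (f := fun (s : Fin d → ZMod q) (b : Fin d → ZMod q) =>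
      if (red q (lft s), b) ∈ R then Φ (lft s) b else 0)]
    simp only [af_red_lft]
    rw [← Finset.sum_filter]
    apply Finset.sum_congr _ (fun _ _ => rfl)
    ext x
    simp
  have hu : ∀ u ∈ box d U, ∑ c ∈ box d (3 * N), ∑ b : Fin d → ZMod q,
      (if (red q (pt Q u c (p : ℤ)), b) ∈ R then Φ (pt Q u c (p : ℤ)) b else 0) =
        ∑ s ∈ box d N, G s := by
    intro u hu
    have h1 := af_shift N (fun i => (Q : ℤ) / p * u i) ?_ G hG
    · rw [← h1]
      rfl
    · intro i
      rw [mem_box] at hu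
      have h2 := hu i
      have h3 : |u i| ≤ (U : ℤ) := h2
      have h4 : (Q : ℤ) / p = ((Q / p : ℕ) : ℤ) := by push_cast; rfl
      rw [h4, abs_mul, abs_of_nonneg (by positivity : (0 : ℤ) ≤ ((Q / p : ℕ) : ℤ))]
      calc ((Q / p : ℕ) : ℤ) * |u i| ≤ ((Q / p : ℕ) : ℤ) * U :=
            mul_le_mul_of_nonneg_left h3 (by positivity)
        _ ≤ 2 * N := by exact_mod_cast hU
  rw [Finset.sum_congr rfl hu, Finset.sum_const, nsmul_eq_mul, box_card, hL]

end Pool.Agent.H79.GUA
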